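import Pool.Agent.Q130.BC.WGame

/-! # The degree-preserving Builder-Chooser game -/

set_option autoImplicit false

namespace Pool.Agent.Q130.BC

open Finset SimpleGraph

/-- the graph after Builder's first step: the edges of the matching `M` are deleted and the new
vertex `none` is joined to all vertices of `M` -/
def plus {V : Type} (G : SimpleGraph V) (M : G.Subgraph) : SimpleGraph (Option V) where
  Adj u v := match u, v with
    | some x, some y => G.Adj x y ∧ ¬ M.Adj x y
    | some x, none => x ∈ M.verts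
    | none, some y => y ∈ M.verts
    | none, none => False
  symm := ⟨fun u v h => by
    cases u <;> cases v
    · exact h
    · exact h
    · exact h
    · exact ⟨h.1.symm, fun h' => h.2 h'.symm⟩⟩
  loopless := ⟨fun u h => by
    cases u
    · exact h
    · exact h.1.ne rfl⟩

/-- Builder can guarantee a complete graph with `k` vertices after exactly `t` rounds -/
def Forces (k : ℕ) : ℕ → (V : Type) → SimpleGraph V → Prop
  | 0, _, G => ¬ G.CliqueFree k
  | t + 1, V, G => ∃ M : G.Subgraph, M.IsMatching ∧ ∃ A B : SimpleGraph (Option V),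
      A ⊔ B = plus G M ∧ Disjoint A B ∧ Forces k t (Option V) A ∧ Forces k t (Option V) B

/-- names: `inl s` is the new vertex of round `s`, `inr (s, i, b)` the ends of the fresh edges used
for the fuel of `inl s` -/
abbrev Om := ℕ ⊕ (ℕ × ℕ × Bool)

def canAdj (t : ℕ) (L : SimpleGraph ℕ) (I : ℕ → Finset ℕ) : Om → Om → Prop
  | .inl s, .inl s' => L.Adj s s'
  | .inl s, .inr (s', i, b) => s = s' ∧ b = false ∧ s < t ∧ i ∈ I s
  | .inr (s', i, b), .inl s => s = s' ∧ b = false ∧ s < t ∧ i ∈ I s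
  | .inr (s, i, b), .inr (s', i', b') => s = s' ∧ i = i' ∧ b ≠ b' ∧ t ≤ s ∧ i ∈ I s

def mu (t : ℕ) (f : ℕ → ℕ) (I : ℕ → Finset ℕ) : Om → Om → Prop
  | .inl _, .inl _ => False
  | .inl s, .inr (s', i, b) => s = s' ∧ b = false ∧ s < t ∧ i = f s
  | .inr (s', i, b), .inl s => s = s' ∧ b = false ∧ s < t ∧ i = f s
  | .inr (s, i, b), .inr (s', i', b') => s = s' ∧ i = i' ∧ b ≠ b' ∧ s = t ∧ i ∈ I s

def Dm (t : ℕ) (I : ℕ → Finset ℕ) : Om → Prop
  | .inl s => s < t
  | .inr (s, i, _) => i ∈ I s

lemma canAdj_symm (t : ℕ) (L : SimpleGraph ℕ) (I : ℕ → Finset ℕ) (p q : Om)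
    (h : canAdj t L I p q) : canAdj t L I q p := by
  rcases p with s | ⟨s, i, b⟩ <;> rcases q with s' | ⟨s', i', b'⟩
  · exact (show L.Adj s s' from h).symm
  · exact h
  · exact h
  · obtain ⟨h1, h2, h3, h4, h5⟩ := h
    subst h1; subst h2
    exact ⟨rfl, rfl, h3.symm, h4, h5⟩

lemma canAdj_dom (t : ℕ) (L : SimpleGraph ℕ) (hL : ∀ x y, L.Adj x y → x < t) (I : ℕ → Finset ℕ)
    (p q : Om) (h : canAdj t L I p q) : Dm t I p := by
  rcases p with s | ⟨s, i, b⟩ <;> rcases q with s' | ⟨s', i', b'⟩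
  · exact hL s s' h
  · exact h.2.2.1
  · obtain ⟨h1, h2, h3, h4⟩ := h
    subst h1
    exact h4
  · exact h.2.2.2.2

lemma canAdj_ne (t : ℕ) (L : SimpleGraph ℕ) (I : ℕ → Finset ℕ)
    (p q : Om) (h : canAdj t L I p q) : p ≠ q := by
  rintro rfl
  rcases p with s | ⟨s, i, b⟩
  · exact (show L.Adj s s from h).ne rfl
  · exact h.2.2.1 rfl

lemma mu_symm (t : ℕ) (f : ℕ → ℕ) (I : ℕ → Finset ℕ) (p q : Om) (h : mu t f I p q) :
    mu t f I q p := by
  rcases p with s | ⟨s, i, b⟩ <;> rcases q with s' | ⟨s', i', b'⟩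
  · exact h
  · exact h
  · exact h
  · obtain ⟨h1, h2, h3, h4, h5⟩ := h
    subst h1; subst h2
    exact ⟨rfl, rfl, h3.symm, h4, h5⟩

lemma mu_can (t : ℕ) (f : ℕ → ℕ) (I : ℕ → Finset ℕ) (L : SimpleGraph ℕ)
    (hf : ∀ s, s < t → f s ∈ I s) (p q : Om) (h : mu t f I p q) : canAdj t L I p q := by
  rcases p with s | ⟨s, i, b⟩ <;> rcases q with s' | ⟨s', i', b'⟩
  · exact h.elim
  · obtain ⟨h1, h2, h3, h4⟩ := h
    exact ⟨h1, h2, h3, by rw [h4]; exact hf s h3⟩
  · obtain ⟨h1, h2, h3, h4⟩ := h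
    exact ⟨h1, h2, h3, by rw [h4]; exact hf s' h3⟩
  · obtain ⟨h1, h2, h3, h4, h5⟩ := h
    exact ⟨h1, h2, h3, by omega, h5⟩

lemma mu_fun (t : ℕ) (f : ℕ → ℕ) (I : ℕ → Finset ℕ) (p q q' : Om) (h : mu t f I p q)
    (h' : mu t f I p q') : q = q' := by
  rcases p with s | ⟨s, i, b⟩ <;> rcases q with s1 | ⟨s1, i1, b1⟩ <;> rcases q' with s2 | ⟨s2, i2, b2⟩
  · exact h.elim
  · exact h.elim
  · exact h'.elim
  · obtain ⟨h1, h2, h3, h4⟩ := h
    obtain ⟨k1, k2, k3, k4⟩ := h'
    subst h1; subst h2; subst h4; subst k1; subst k2; subst k4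
    rfl
  · obtain ⟨h1, h2, h3, h4⟩ := h
    obtain ⟨k1, k2, k3, k4⟩ := h'
    subst h1; subst k1
    rfl
  · obtain ⟨h1, h2, h3, h4⟩ := h
    obtain ⟨k1, k2, k3, k4, k5⟩ := h'
    omega
  · obtain ⟨h1, h2, h3, h4⟩ := h'
    obtain ⟨k1, k2, k3, k4, k5⟩ := h
    omega
  · obtain ⟨h1, h2, h3, h4, h5⟩ := h
    obtain ⟨k1, k2, k3, k4, k5⟩ := h'
    subst h1; subst h2; subst k1; subst k2
    have : b1 = b2 := by
      cases b <;> cases b1 <;> cases b2 <;> simp_all
    rw [this]

/-- realisation of strategies -/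
theorem realise (k : ℕ) (n : ℕ) : ∀ (t : ℕ) (L : SimpleGraph ℕ), WG (Cl k 1 0 0) 0 n t L →
    (∀ x y, L.Adj x y → x < t) → ∀ I : ℕ → Finset ℕ, (∀ s, s < t + n → 3 ^ n ≤ (I s).card) →
    ∀ (V : Type) (G : SimpleGraph V) (φ : Om → V),
    (∀ p q, Dm t I p → Dm t I q → φ p = φ q → p = q) →
    (∀ p q, canAdj t L I p q → G.Adj (φ p) (φ q)) → Forces k n V G := by
  classical
  induction n with
  | zero =>
    intro t L hW hL I hI V G φ hinj hG
    obtain ⟨c, h1, _, _⟩ := hW
    obtain ⟨h2, h3⟩ := h1 0 (by omega) 0 (by simp)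
    show ¬ G.CliqueFree k
    intro hfree
    apply hfree ((c 0 0).image (fun s => φ (.inl s)))
    refine ⟨?_, ?_⟩
    · intro u hu v hv huv
      rw [coe_image] at hu hv
      obtain ⟨s, hs, rfl⟩ := hu
      obtain ⟨s', hs', rfl⟩ := hv
      apply hG
      exact h2.isClique hs hs' (fun h => huv (by rw [h]))
    · rw [card_image_of_injOn, h2.card_eq]
      intro s hs s' hs' h
      have := hinj (.inl s) (.inl s') (h3 s hs).2 (h3 s' hs').2 h
      exact Sum.inl.inj this
  | succ n ih =>
    intro t L hW hL I hI V G φ hinj hG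
    obtain ⟨A, B, hAB, hdis, hWA, hWB⟩ := hW
    have h3pos : 0 < 3 ^ n := by positivity
    have h3 : 3 ^ (n + 1) = 3 * 3 ^ n := by ring
    -- the fuel used in this round
    have hex : ∀ s, ∃ i, s < t → i ∈ I s := by
      intro s
      by_cases hs : s < t
      · have h1 := hI s (by omega)
        have : (I s).Nonempty := card_pos.1 (by omega)
        obtain ⟨i, hi⟩ := this
        exact ⟨i, fun _ => hi⟩
      · exact ⟨0, fun h => absurd h hs⟩
    choose f hf using hex
    set av : ℕ → Finset ℕ := fun s => if s < t then (I s).erase (f s) else I s with hav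
    have hav1 : ∀ s, av s ⊆ I s := by
      intro s
      rw [hav]
      simp only
      split_ifs
      · exact erase_subset _ _
      · exact Subset.rfl
    have hav2 : ∀ s, s < t → f s ∉ av s := by
      intro s hs
      rw [hav]
      simp only [hs, if_true]
      exact notMem_erase _ _
    have hav3 : ∀ s, s < t + 1 + n → 2 * 3 ^ n ≤ (av s).card := by
      intro s hs
      have h1 := hI s (by omega)
      rw [hav]
      simp only
      split_ifs with h2
      · rw [card_erase_of_mem (hf s h2)]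
        omega
      · omega
    have hsplit : ∀ s, ∃ J, J ⊆ av s ∧ (s < t + 1 + n → 3 ^ n ≤ J.card ∧ 3 ^ n ≤ (av s \ J).card) := by
      intro s
      by_cases hs : s < t + 1 + n
      · have h1 := hav3 s hs
        obtain ⟨J, hJ, hJc⟩ := exists_subset_card_eq (show 3 ^ n ≤ (av s).card by omega)
        refine ⟨J, hJ, fun _ => ⟨hJc.ge, ?_⟩⟩
        rw [card_sdiff_of_subset hJ]
        omega
      · exact ⟨∅, empty_subset _, fun h => absurd h hs⟩
    choose J hJ1 hJ2 using hsplit
    -- the matching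
    have hD : ∀ p q, mu t f I p q → Dm t I p := fun p q h =>
      canAdj_dom t L hL I p q (mu_can t f I L hf p q h)
    let M : G.Subgraph :=
      { verts := {u | ∃ p q, mu t f I p q ∧ φ p = u}
        Adj := fun u v => ∃ p q, mu t f I p q ∧ φ p = u ∧ φ q = v
        adj_sub := by
          rintro u v ⟨p, q, h, rfl, rfl⟩
          exact hG p q (mu_can t f I L hf p q h)
        edge_vert := by
          rintro u v ⟨p, q, h, rfl, rfl⟩
          exact ⟨p, q, h, rfl⟩
        symm := by
          refine ⟨?_⟩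
          rintro u v ⟨p, q, h, rfl, rfl⟩
          exact ⟨q, p, mu_symm t f I p q h, rfl, rfl⟩ }
    have hM : M.IsMatching := by
      rintro u ⟨p, q, h, rfl⟩
      refine ⟨φ q, ⟨p, q, h, rfl, rfl⟩, ?_⟩
      rintro v ⟨p', q', h', e1, rfl⟩
      have : p' = p := hinj p' p (hD p' q' h') (hD p q h) e1
      subst this
      rw [mu_fun t f I p' q' q h' h]
    set ψ : Om → Option V := fun p => if p = .inl t then none else some (φ p) with hψ
    have ψt : ψ (.inl t) = none := by rw [hψ]; simp
    have ψne : ∀ p, p ≠ .inl t → ψ p = some (φ p) := by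
      intro p hp
      rw [hψ]
      simp only [hp, if_false]
    have hDm : ∀ p, Dm (t + 1) I p → p ≠ .inl t → Dm t I p := by
      intro p hp hpt
      rcases p with s | ⟨s, i, b⟩
      · have h1 : s < t + 1 := hp
        have h2 : s ≠ t := fun h => hpt (by rw [h])
        show s < t
        omega
      · exact hp
    have ψinj : ∀ p q, Dm (t + 1) I p → Dm (t + 1) I q → ψ p = ψ q → p = q := by
      intro p q hp hq h
      by_cases h1 : p = .inl t
      · by_cases h2 : q = .inl t
        · rw [h1, h2]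
        · rw [h1, ψt, ψne q h2] at h
          exact absurd h (by simp)
      · by_cases h2 : q = .inl t
        · rw [h2, ψt, ψne p h1] at h
          exact absurd h (by simp)
        · rw [ψne p h1, ψne q h2] at h
          exact hinj p q (hDm p hp h1) (hDm q hq h2) (Option.some.inj h)
    have hDmono : ∀ (K : ℕ → Finset ℕ), (∀ s, K s ⊆ av s) → ∀ p, Dm (t + 1) K p → Dm (t + 1) I p := by
      intro K hK p hp
      rcases p with s | ⟨s, i, b⟩
      · exact hp
      · exact hav1 s (hK s hp)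
    -- designated edges are edges of `plus G M`
    have key : ∀ (C : SimpleGraph ℕ) (K : ℕ → Finset ℕ), C ≤ L ⊔ star 0 t → (∀ s, K s ⊆ av s) →
        ∀ p q, canAdj (t + 1) C K p q → (plus G M).Adj (ψ p) (ψ q) := by
      intro C K hC hK
      have key1 : ∀ p q, canAdj t L I p q → p ≠ .inl t → q ≠ .inl t → ¬ mu t f I p q →
          (plus G M).Adj (ψ p) (ψ q) := by
        intro p q h1 h2 h3 h4
        rw [ψne p h2, ψne q h3]
        refine ⟨hG p q h1, ?_⟩
        rintro ⟨p', q', h5, e1, e2⟩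
        have e3 := hinj p' p (hD p' q' h5) (canAdj_dom t L hL I p q h1) e1
        have e4 := hinj q' q (hD q' p' (mu_symm t f I p' q' h5))
          (canAdj_dom t L hL I q p (canAdj_symm t L I p q h1)) e2
        rw [e3, e4] at h5
        exact h4 h5
      have key2 : ∀ q, q ≠ .inl t → (∃ r, mu t f I q r) → (plus G M).Adj (ψ (.inl t)) (ψ q) := by
        rintro q h1 ⟨r, hr⟩
        rw [ψt, ψne q h1]
        exact ⟨q, r, hr, rfl⟩
      intro p q h
      rcases p with s | ⟨s, i, b⟩ <;> rcases q with s' | ⟨s', i', b'⟩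
      · rcases hC (show C.Adj s s' from h) with h1 | ⟨h1, h2, h3⟩ | ⟨h1, h2, h3⟩
        · have e1 := hL s s' h1
          have e2 := hL s' s h1.symm
          exact key1 _ _ h1 (by simp; omega) (by simp; omega) (fun h => h)
        · subst h1
          exact key2 (.inl s') (by simp; omega) ⟨.inr (s', f s', false), rfl, rfl, h3, rfl⟩
        · subst h1
          exact (key2 (.inl s) (by simp; omega) ⟨.inr (s, f s, false), rfl, rfl, h3, rfl⟩).symm
      · obtain ⟨h1, h2, h3, h4⟩ := h
        subst h1; subst h2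
        rcases Nat.lt_or_ge s t with h5 | h5
        · refine key1 _ _ ⟨rfl, rfl, h5, hav1 s (hK s h4)⟩ (by simp; omega) (by simp) ?_
          rintro ⟨_, _, _, h6⟩
          apply hav2 s h5
          rw [← h6]
          exact hK s h4
        · have : s = t := by omega
          subst this
          exact key2 (.inr (s, i', false)) (by simp)
            ⟨.inr (s, i', true), rfl, rfl, by simp, rfl, hav1 s (hK s h4)⟩
      · obtain ⟨h1, h2, h3, h4⟩ := h
        subst h1; subst h2
        rcases Nat.lt_or_ge s' t with h5 | h5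
        · refine key1 _ _ ⟨rfl, rfl, h5, hav1 s' (hK s' h4)⟩ (by simp) (by simp; omega) ?_
          rintro ⟨_, _, _, h6⟩
          apply hav2 s' h5
          rw [← h6]
          exact hK s' h4
        · have : s' = t := by omega
          subst this
          exact (key2 (.inr (s', i, false)) (by simp)
            ⟨.inr (s', i, true), rfl, rfl, by simp, rfl, hav1 s' (hK s' h4)⟩).symm
      · obtain ⟨h1, h2, h3, h4, h5⟩ := h
        subst h1; subst h2
        refine key1 _ _ ⟨rfl, rfl, h3, by omega, hav1 s (hK s h5)⟩ (by simp) (by simp) ?_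
        rintro ⟨_, _, _, h6, _⟩
        omega
    have hAle : A ≤ L ⊔ star 0 t := le_sup_left.trans hAB
    have hBle : B ≤ L ⊔ star 0 t := le_sup_right.trans hAB
    have hlt : ∀ C : SimpleGraph ℕ, C ≤ L ⊔ star 0 t → ∀ x y, C.Adj x y → x < t + 1 := by
      intro C hC x y h
      rcases hC h with h1 | ⟨h1, h2, h3⟩ | ⟨h1, h2, h3⟩
      · have := hL x y h1
        omega
      · omega
      · omega
    set IB : ℕ → Finset ℕ := fun s => av s \ J s with hIB
    have hIBav : ∀ s, IB s ⊆ av s := fun s => sdiff_subset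
    let B' : SimpleGraph (Option V) :=
      { Adj := fun u v => u ≠ v ∧ ∃ p q, canAdj (t + 1) B IB p q ∧ ψ p = u ∧ ψ q = v
        symm := by
          refine ⟨?_⟩
          rintro u v ⟨h1, p, q, h2, h3, h4⟩
          exact ⟨h1.symm, q, p, canAdj_symm _ _ _ _ _ h2, h4, h3⟩
        loopless := ⟨fun u h => h.1 rfl⟩ }
    have hB'le : B' ≤ plus G M := by
      rintro u v ⟨_, p, q, h, rfl, rfl⟩
      exact key B IB hBle hIBav p q h
    refine ⟨M, hM, plus G M \ B', B', sdiff_sup_cancel hB'le, disjoint_sdiff_self_left, ?_, ?_⟩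
    · refine ih (t + 1) A hWA (hlt A hAle) J (fun s hs => (hJ2 s (by omega)).1) (Option V) _ ψ
        (fun p q hp hq => ψinj p q (hDmono J hJ1 p hp) (hDmono J hJ1 q hq)) ?_
      intro p q h
      rw [sdiff_adj]
      refine ⟨key A J hAle hJ1 p q h, ?_⟩
      rintro ⟨_, p', q', h', e1, e2⟩
      have d1 := hDmono J hJ1 p (canAdj_dom _ _ (hlt A hAle) _ _ _ h)
      have d2 := hDmono J hJ1 q (canAdj_dom _ _ (hlt A hAle) _ _ _ (canAdj_symm _ _ _ _ _ h))
      have d3 := hDmono IB hIBav p' (canAdj_dom _ _ (hlt B hBle) _ _ _ h')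
      have d4 := hDmono IB hIBav q' (canAdj_dom _ _ (hlt B hBle) _ _ _ (canAdj_symm _ _ _ _ _ h'))
      have e3 := ψinj p' p d3 d1 e1
      have e4 := ψinj q' q d4 d2 e2
      subst e3; subst e4
      rcases p' with s | ⟨s, i, b⟩ <;> rcases q' with s' | ⟨s', i', b'⟩
      · have h1 : (A ⊓ B).Adj s s' := ⟨h, h'⟩
        rw [disjoint_iff.1 hdis] at h1
        exact h1
      · have h1 := h.2.2.2
        have h2 := h'.2.2.2
        exact (mem_sdiff.1 h2).2 h1
      · have h1 := h.2.2.2
        have h2 := h'.2.2.2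
        exact (mem_sdiff.1 h2).2 h1
      · have h1 := h.2.2.2.2
        have h2 := h'.2.2.2.2
        exact (mem_sdiff.1 h2).2 h1
    · refine ih (t + 1) B hWB (hlt B hBle) IB (fun s hs => (hJ2 s (by omega)).2) (Option V) _ ψ
        (fun p q hp hq => ψinj p q (hDmono IB hIBav p hp) (hDmono IB hIBav q hq)) ?_
      intro p q h
      refine ⟨?_, p, q, h, rfl, rfl⟩
      intro heq
      exact canAdj_ne _ _ _ _ _ h (ψinj p q
        (hDmono IB hIBav p (canAdj_dom _ _ (hlt B hBle) _ _ _ h))
        (hDmono IB hIBav q (canAdj_dom _ _ (hlt B hBle) _ _ _ (canAdj_symm _ _ _ _ _ h))) heq)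

end Pool.Agent.Q130.BC
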