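import Mathlib

/-! # The game on the new vertices

The vertices are natural numbers; in round `t` the vertex `t` is joined to all `x` with
`t0 ≤ x < t`, Builder splits the edges and Chooser picks a class. -/

set_option autoImplicit false

namespace Pool.Agent.Q130.BC

open Finset SimpleGraph

/-- the star of the round `t` -/
def star (t0 t : ℕ) : SimpleGraph ℕ where
  Adj x y := (x = t ∧ t0 ≤ y ∧ y < t) ∨ (y = t ∧ t0 ≤ x ∧ x < t)
  symm := ⟨fun x y h => h.symm⟩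
  loopless := ⟨fun x h => by rcases h with ⟨h1, _, h3⟩ | ⟨h1, _, h3⟩ <;> omega⟩

/-- Builder can force `P` within exactly `n` rounds -/
def WG (P : ℕ → SimpleGraph ℕ → Prop) (t0 : ℕ) : ℕ → ℕ → SimpleGraph ℕ → Prop
  | 0, t, G => P t G
  | n + 1, t, G => ∃ A B : SimpleGraph ℕ, A ⊔ B ≤ G ⊔ star t0 t ∧ Disjoint A B ∧
      WG P t0 n (t + 1) A ∧ WG P t0 n (t + 1) B

lemma WG.mono {P : ℕ → SimpleGraph ℕ → Prop} {t0 : ℕ}
    (hP : ∀ t G G', G ≤ G' → P t G → P t G') {n t : ℕ} {G G' : SimpleGraph ℕ} (hG : G ≤ G')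
    (h : WG P t0 n t G) : WG P t0 n t G' := by
  cases n with
  | zero => exact hP t G G' hG h
  | succ n =>
    obtain ⟨A, B, h1, h2, h3, h4⟩ := h
    exact ⟨A, B, h1.trans (sup_le_sup_right hG _), h2, h3, h4⟩

lemma WG.comp {P Q : ℕ → SimpleGraph ℕ → Prop} {t0 m : ℕ} (n : ℕ) :
    ∀ t G, WG P t0 n t G → (∀ t' G', t ≤ t' → P t' G' → WG Q t0 m t' G') →
      WG Q t0 (n + m) t G := by
  induction n with
  | zero =>
    intro t G h hQ
    rw [Nat.zero_add]
    exact hQ t G le_rfl h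
  | succ n ih =>
    intro t G h hQ
    obtain ⟨A, B, h1, h2, h3, h4⟩ := h
    have e : n + 1 + m = (n + m) + 1 := by ring
    rw [e]
    exact ⟨A, B, h1, h2, ih _ A h3 (fun t' G' ht => hQ t' G' (by omega)),
      ih _ B h4 (fun t' G' ht => hQ t' G' (by omega))⟩

/-- `s` groups of `2 ^ r` edge-disjoint cliques of size `j`, the groups being vertex-disjoint, on the
vertices in `[t0, t)` -/
def Cl (j s r t0 t : ℕ) (G : SimpleGraph ℕ) : Prop :=
  ∃ c : ℕ → ℕ → Finset ℕ, (∀ a, a < s → ∀ i, i < 2 ^ r → G.IsNClique j (c a i) ∧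
    (∀ x ∈ c a i, t0 ≤ x ∧ x < t)) ∧
    (∀ a, a < s → ∀ i, i < 2 ^ r → ∀ i', i' < 2 ^ r → i ≠ i' →
      ∀ x ∈ c a i, ∀ y ∈ c a i, x ∈ c a i' → y ∈ c a i' → x = y) ∧
    (∀ a, a < s → ∀ a', a' < s → a ≠ a' → ∀ i, i < 2 ^ r → ∀ i', i' < 2 ^ r →
      Disjoint (c a i) (c a' i'))

lemma Cl.mono {j s r t0 : ℕ} : ∀ t (G G' : SimpleGraph ℕ), G ≤ G' → Cl j s r t0 t G →
    Cl j s r t0 t G' := by
  rintro t G G' hG ⟨c, h1, h2, h3⟩
  exact ⟨c, fun a ha i hi => ⟨(h1 a ha i hi).1.mono hG, (h1 a ha i hi).2⟩, h2, h3⟩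

/-- the edges inside the cliques `c a i` with `(a, i)` in a set -/
def inside (c : ℕ → ℕ → Finset ℕ) (P : ℕ → ℕ → Prop) : SimpleGraph ℕ where
  Adj x y := x ≠ y ∧ ∃ a i, P a i ∧ x ∈ c a i ∧ y ∈ c a i
  symm := ⟨fun x y h => ⟨h.1.symm, by
    obtain ⟨_, a, i, h1, h2, h3⟩ := h
    exact ⟨a, i, h1, h3, h2⟩⟩⟩
  loopless := ⟨fun x h => h.1 rfl⟩

/-- halving -/
lemma Cl.half {j s r t0 t : ℕ} {G : SimpleGraph ℕ} (h : Cl j s (r + 1) t0 t G) :
    ∃ A B : SimpleGraph ℕ, A ⊔ B ≤ G ∧ Disjoint A B ∧ Cl j s r t0 t A ∧ Cl j s r t0 t B ∧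
      (∀ x y, (A ⊔ B).Adj x y → x < t) := by
  obtain ⟨c, h1, h2, h3⟩ := h
  have hpow : 2 ^ (r + 1) = 2 ^ r + 2 ^ r := by ring
  rw [hpow] at h1 h2 h3
  set A := inside c (fun a i => a < s ∧ i < 2 ^ r) with hA
  set B := inside c (fun a i => a < s ∧ 2 ^ r ≤ i ∧ i < 2 ^ r + 2 ^ r) with hB
  have hAG : A ≤ G := by
    rintro x y ⟨hxy, a, i, ⟨ha, hi⟩, hx, hy⟩
    exact (h1 a ha i (by omega)).1.isClique hx hy hxy
  have hBG : B ≤ G := by
    rintro x y ⟨hxy, a, i, ⟨ha, hi, hi2⟩, hx, hy⟩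
    exact (h1 a ha i (by omega)).1.isClique hx hy hxy
  refine ⟨A, B, sup_le hAG hBG, ?_, ?_, ?_, ?_⟩
  · rw [disjoint_iff]
    ext x y
    simp only [inf_adj, bot_adj, iff_false, not_and]
    rintro ⟨hxy, a, i, ⟨ha, hi⟩, hx, hy⟩ ⟨_, a', i', ⟨ha', hi', hi''⟩, hx', hy'⟩
    by_cases haa : a = a'
    · subst haa
      exact hxy (h2 a ha i (by omega) i' (by omega) (by omega) x hx y hy hx' hy')
    · exact (Finset.disjoint_left.1 (h3 a ha a' ha' haa i (by omega) i' (by omega)) hx) hx'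
  · refine ⟨c, fun a ha i hi => ⟨⟨?_, (h1 a ha i (by omega)).1.card_eq⟩,
      (h1 a ha i (by omega)).2⟩, fun a ha i hi i' hi' => h2 a ha i (by omega) i' (by omega),
      fun a ha a' ha' haa i hi i' hi' => h3 a ha a' ha' haa i (by omega) i' (by omega)⟩
    intro x hx y hy hxy
    exact ⟨hxy, a, i, ⟨ha, hi⟩, hx, hy⟩
  · refine ⟨fun a i => c a (2 ^ r + i), fun a ha i hi => ⟨⟨?_, (h1 a ha _ (by omega)).1.card_eq⟩,
      (h1 a ha _ (by omega)).2⟩,
      fun a ha i hi i' hi' hii => h2 a ha _ (by omega) _ (by omega) (by omega),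
      fun a ha a' ha' haa i hi i' hi' => h3 a ha a' ha' haa _ (by omega) _ (by omega)⟩
    intro x hx y hy hxy
    exact ⟨hxy, a, 2 ^ r + i, ⟨ha, by omega, by omega⟩, hx, hy⟩
  · intro x y hxy
    rw [sup_adj] at hxy
    rcases hxy with ⟨_, a, i, ⟨ha, hi⟩, hx, _⟩ | ⟨_, a, i, ⟨ha, hi, hi2⟩, hx, _⟩
    · exact ((h1 a ha i (by omega)).2 x hx).2
    · exact ((h1 a ha i (by omega)).2 x hx).2

/-- playing on fresh vertices while the old cliques are halved -/
lemma par {j s r tt t0 : ℕ} (htt : tt ≤ t0) (n : ℕ) : ∀ (t : ℕ) (G Γ : SimpleGraph ℕ), t0 ≤ t →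
    WG (Cl j 1 r t0) t0 n t G → (∀ x y, G.Adj x y → t0 ≤ x) →
    Cl j s (n + r) tt t0 Γ → (∀ x y, Γ.Adj x y → x < t0) →
    WG (Cl j (s + 1) r tt) tt n t (G ⊔ Γ) := by
  induction n with
  | zero =>
    intro t G Γ ht hG _ hΓ _
    rw [Nat.zero_add] at hΓ
    obtain ⟨c, h1, h2, h3⟩ := hG
    obtain ⟨d, k1, k2, k3⟩ := hΓ
    have hdis : ∀ a, a < s → ∀ i, i < 2 ^ r → ∀ i', i' < 2 ^ r → Disjoint (d a i) (c 0 i') := by
      intro a ha i hi i' hi'
      rw [Finset.disjoint_left]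
      intro x hx hx'
      have e1 := ((k1 a ha i hi).2 x hx).2
      have e2 := ((h1 0 (by omega) i' hi').2 x hx').1
      omega
    refine ⟨fun a => if a = s then c 0 else d a, ?_, ?_, ?_⟩
    · intro a ha i hi
      by_cases has : a = s
      · simp only [has, if_true]
        obtain ⟨e1, e2⟩ := h1 0 (by omega) i hi
        exact ⟨e1.mono le_sup_left, fun x hx => ⟨by have := (e2 x hx).1; omega, (e2 x hx).2⟩⟩
      · simp only [has, if_false]
        obtain ⟨e1, e2⟩ := k1 a (by omega) i hi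
        exact ⟨e1.mono le_sup_right, fun x hx => ⟨(e2 x hx).1, by have := (e2 x hx).2; omega⟩⟩
    · intro a ha i hi i' hi' hii
      by_cases has : a = s
      · simp only [has, if_true]
        exact h2 0 (by omega) i hi i' hi' hii
      · simp only [has, if_false]
        exact k2 a (by omega) i hi i' hi' hii
    · intro a ha a' ha' haa i hi i' hi'
      by_cases has : a = s
      · have has' : a' ≠ s := by omega
        simp only [has, has', if_true, if_false]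
        exact (hdis a' (by omega) i' hi' i hi).symm
      · by_cases has' : a' = s
        · simp only [has, has', if_true, if_false]
          exact hdis a (by omega) i hi i' hi'
        · simp only [has, has', if_false]
          exact k3 a (by omega) a' (by omega) haa i hi i' hi'
  | succ n ih =>
    intro t G Γ ht hG hGe hΓ hΓe
    obtain ⟨A, B, g1, g2, g3, g4⟩ := hG
    have e : n + 1 + r = (n + r) + 1 := by ring
    rw [e] at hΓ
    obtain ⟨C, D, k1, k2, k3, k4, k5⟩ := hΓ.half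
    have hstar : star t0 t ≤ star tt t := by
      rintro x y (⟨h1, h2, h3⟩ | ⟨h1, h2, h3⟩)
      · exact Or.inl ⟨h1, by omega, h3⟩
      · exact Or.inr ⟨h1, by omega, h3⟩
    have hA : ∀ x y, A.Adj x y → t0 ≤ x := by
      intro x y hxy
      rcases g1 (Or.inl hxy) with h | ⟨h1, h2, h3⟩ | ⟨h1, h2, h3⟩
      · exact hGe x y h
      · omega
      · exact h2
    have hB : ∀ x y, B.Adj x y → t0 ≤ x := by
      intro x y hxy
      rcases g1 (Or.inr hxy) with h | ⟨h1, h2, h3⟩ | ⟨h1, h2, h3⟩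
      · exact hGe x y h
      · omega
      · exact h2
    refine ⟨A ⊔ C, B ⊔ D, ?_, ?_, ih (t + 1) A C (by omega) g3 hA k3
      (fun x y h => k5 x y (Or.inl h)), ih (t + 1) B D (by omega) g4 hB k4
      (fun x y h => k5 x y (Or.inr h))⟩
    · calc A ⊔ C ⊔ (B ⊔ D) = (A ⊔ B) ⊔ (C ⊔ D) := by
            rw [sup_sup_sup_comm]
        _ ≤ (G ⊔ star t0 t) ⊔ Γ := sup_le_sup g1 k1
        _ ≤ (G ⊔ star tt t) ⊔ Γ := by gcongr
        _ = G ⊔ Γ ⊔ star tt t := by rw [sup_right_comm]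
    · rw [disjoint_iff]
      ext x y
      simp only [inf_adj, sup_adj, bot_adj, iff_false, not_and]
      rintro (h | h) (h' | h')
      · have := (disjoint_iff.1 g2)
        have h3 : (A ⊓ B).Adj x y := ⟨h, h'⟩
        rw [this] at h3
        exact h3
      · have e1 := hA x y h
        have e2 := k5 x y (Or.inr h')
        omega
      · have e1 := hB x y h'
        have e2 := k5 x y (Or.inl h)
        omega
      · have := (disjoint_iff.1 k2)
        have h3 : (C ⊓ D).Adj x y := ⟨h, h'⟩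
        rw [this] at h3
        exact h3

/-- many groups, given one group -/
lemma groups (j : ℕ) (hA : ∀ r, ∃ n, ∀ t0, WG (Cl j 1 r t0) t0 n t0 ⊥) (s : ℕ) :
    ∀ r, ∃ n, ∀ t0, WG (Cl j s r t0) t0 n t0 ⊥ := by
  induction s with
  | zero =>
    intro r
    refine ⟨0, fun t0 => ⟨fun _ _ => ∅, ?_, ?_, ?_⟩⟩
    · intro a ha; omega
    · intro a ha; omega
    · intro a ha; omega
  | succ s ih =>
    intro r
    obtain ⟨n1, h1⟩ := hA r
    obtain ⟨n2, h2⟩ := ih (n1 + r)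
    refine ⟨n2 + n1, fun t0 => WG.comp n2 t0 ⊥ (h2 t0) ?_⟩
    intro t' G' ht' hG'
    obtain ⟨c, k1, k2, k3⟩ := hG'
    set Γ : SimpleGraph ℕ := inside c (fun a i => a < s ∧ i < 2 ^ (n1 + r)) with hΓ
    have hΓG : Γ ≤ G' := by
      rintro x y ⟨hxy, a, i, ⟨ha, hi⟩, hx, hy⟩
      exact (k1 a ha i hi).1.isClique hx hy hxy
    have hΓc : Cl j s (n1 + r) t0 t' Γ := by
      refine ⟨c, fun a ha i hi => ⟨⟨?_, (k1 a ha i hi).1.card_eq⟩, (k1 a ha i hi).2⟩, k2, k3⟩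
      intro x hx y hy hxy
      exact ⟨hxy, a, i, ⟨ha, hi⟩, hx, hy⟩
    have := par ht' n1 t' ⊥ Γ le_rfl (h1 t') (fun x y h => absurd h (by simp)) hΓc (by
      rintro x y ⟨hxy, a, i, ⟨ha, hi⟩, hx, hy⟩
      exact ((k1 a ha i hi).2 x hx).2)
    rw [bot_sup_eq] at this
    exact this.mono Cl.mono hΓG

/-- the base case -/
lemma base (r : ℕ) : ∃ n, ∀ t0, WG (Cl 1 1 r t0) t0 n t0 ⊥ := by
  have key : ∀ t0, Cl 1 1 r t0 (t0 + 1) ⊥ := by
    intro t0
    refine ⟨fun _ _ => {t0}, ?_, ?_, ?_⟩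
    · intro a ha i hi
      refine ⟨⟨?_, by simp⟩, ?_⟩
      · intro x hx y hy hxy
        simp only [coe_singleton, Set.mem_singleton_iff] at hx hy
        exact absurd (hx.trans hy.symm) hxy
      · intro x hx
        rw [mem_singleton] at hx
        omega
    · intro a ha i hi i' hi' hii x hx y hy _ _
      rw [mem_singleton] at hx hy
      rw [hx, hy]
    · intro a ha a' ha' haa
      omega
  exact ⟨1, fun t0 => ⟨⊥, ⊥, by simp, by simp, key t0, key t0⟩⟩

/-- one more vertex -/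
lemma step (j r : ℕ) (hB : ∃ n, ∀ t0, WG (Cl j (2 ^ (r + 1)) 0 t0) t0 n t0 ⊥) :
    ∃ n, ∀ t0, WG (Cl (j + 1) 1 r t0) t0 n t0 ⊥ := by
  obtain ⟨n, hn⟩ := hB
  refine ⟨n + 1, fun t0 => WG.comp n t0 ⊥ (hn t0) ?_⟩
  intro t G _ hG
  obtain ⟨c, h1, _, h3⟩ := hG
  have hpow : 2 ^ (r + 1) = 2 ^ r + 2 ^ r := by ring
  rw [hpow] at h1 h3
  set d : ℕ → ℕ → Finset ℕ := fun a _ => insert t (c a 0) with hd
  have hnot : ∀ a, a < 2 ^ r + 2 ^ r → t ∉ c a 0 := by
    intro a ha h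
    have := ((h1 a ha 0 (by simp)).2 t h).2
    omega
  have hadj : ∀ a, a < 2 ^ r + 2 ^ r → ∀ x ∈ d a 0, ∀ y ∈ d a 0, x ≠ y →
      (G ⊔ star t0 t).Adj x y := by
    intro a ha x hx y hy hxy
    rw [hd] at hx hy
    simp only [mem_insert] at hx hy
    obtain ⟨e1, e2⟩ := h1 a ha 0 (by simp)
    rcases hx with hx | hx
    · rcases hy with hy | hy
      · exact absurd (hx.trans hy.symm) hxy
      · exact Or.inr (Or.inl ⟨hx, (e2 y hy).1, (e2 y hy).2⟩)
    · rcases hy with hy | hy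
      · exact Or.inr (Or.inr ⟨hy, (e2 x hx).1, (e2 x hx).2⟩)
      · exact Or.inl (e1.isClique hx hy hxy)
  have hint : ∀ a, a < 2 ^ r + 2 ^ r → ∀ a', a' < 2 ^ r + 2 ^ r → a ≠ a' →
      ∀ x ∈ d a 0, ∀ y ∈ d a 0, x ∈ d a' 0 → y ∈ d a' 0 → x = y := by
    intro a ha a' ha' haa x hx y hy hx' hy'
    rw [hd] at hx hy hx' hy'
    simp only [mem_insert] at hx hy hx' hy'
    have hdis := h3 a ha a' ha' haa 0 (by simp) 0 (by simp)
    rw [Finset.disjoint_left] at hdis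
    have k1 : x = t := by
      by_contra hcon
      exact hdis (hx.resolve_left hcon) (hx'.resolve_left hcon)
    have k2 : y = t := by
      by_contra hcon
      exact hdis (hy.resolve_left hcon) (hy'.resolve_left hcon)
    rw [k1, k2]
  have hcl : ∀ (P : ℕ → ℕ → Prop) a, a < 2 ^ r + 2 ^ r → P a 0 →
      (inside d P).IsNClique (j + 1) (d a 0) ∧ ∀ x ∈ d a 0, t0 ≤ x ∧ x < t + 1 := by
    intro P a ha hP
    refine ⟨⟨?_, ?_⟩, ?_⟩
    · intro x hx y hy hxy
      exact ⟨hxy, a, 0, hP, hx, hy⟩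
    · rw [hd]
      simp only
      rw [card_insert_of_notMem (hnot a ha), (h1 a ha 0 (by simp)).1.card_eq]
    · intro x hx
      rw [hd] at hx
      simp only [mem_insert] at hx
      rcases hx with hx | hx
      · subst hx
        exact ⟨by assumption, by omega⟩
      · have := (h1 a ha 0 (by simp)).2 x hx
        exact ⟨this.1, by omega⟩
  refine ⟨inside d (fun a i => a < 2 ^ r ∧ i = 0),
    inside d (fun a i => 2 ^ r ≤ a ∧ a < 2 ^ r + 2 ^ r ∧ i = 0), ?_, ?_, ?_, ?_⟩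
  · apply sup_le
    · rintro x y ⟨hxy, a, i, ⟨ha, hi⟩, hx, hy⟩
      exact hadj a (by omega) x hx y hy hxy
    · rintro x y ⟨hxy, a, i, ⟨ha, ha', hi⟩, hx, hy⟩
      exact hadj a (by omega) x hx y hy hxy
  · rw [disjoint_iff]
    ext x y
    simp only [inf_adj, bot_adj, iff_false, not_and]
    rintro ⟨hxy, a, i, ⟨ha, hi⟩, hx, hy⟩ ⟨_, a', i', ⟨ha', ha'', hi'⟩, hx', hy'⟩
    exact hxy (hint a (by omega) a' (by omega) (by omega) x hx y hy hx' hy')
  · refine ⟨fun _ i => d i 0, ?_, ?_, ?_⟩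
    · intro a ha i hi
      exact hcl _ i (by omega) ⟨hi, rfl⟩
    · intro a ha i hi i' hi' hii
      exact hint i (by omega) i' (by omega) hii
    · intro a ha a' ha' haa
      omega
  · refine ⟨fun _ i => d (2 ^ r + i) 0, ?_, ?_, ?_⟩
    · intro a ha i hi
      exact hcl _ (2 ^ r + i) (by omega) ⟨by omega, by omega, rfl⟩
    · intro a ha i hi i' hi' hii
      exact hint _ (by omega) _ (by omega) (by omega)
    · intro a ha a' ha' haa
      omega

theorem cliques (j : ℕ) : ∀ r, ∃ n, ∀ t0, WG (Cl (j + 1) 1 r t0) t0 n t0 ⊥ := by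
  induction j with
  | zero => exact base
  | succ j ih => exact fun r => step (j + 1) r (groups (j + 1) ih _ 0)

end Pool.Agent.Q130.BC
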